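import Pool.Agent.H66.BP.Targets

/-! # MP_d8fe2e_gt, module JC: Jensen sums of regular families are continuous and sub-mean -/

open MeasureTheory Set Filter Topology Metric
open scoped Real ENNReal NNReal

namespace Pool.Agent.H17.BP
open Pool.Agent.H66.BP

lemma D_zero {F : ℂ × ℂ → ℂ} {D : ℂ × ℂ → ℂ → ℕ} (hF : Differentiable ℂ F)
    (hD : ∀ z ζ, D z ζ ≤ oF F z ζ) {z : ℂ × ℂ} {ζ : ℂ} (h : F (ζ • z) ≠ 0) : D z ζ = 0 := by
  have hfd : Differentiable ℂ (fun ξ : ℂ => F (ξ • z)) :=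
    hF.comp (differentiable_id.smul_const z)
  have h2 : oF F z ζ = 0 := by
    unfold oF analyticOrderNatAt
    have := (hfd.analyticAt ζ).analyticOrderAt_eq_zero.2 h
    rw [this]; rfl
  have := hD z ζ
  omega

/-- the points of the divisor in a bounded set are finite in number -/
lemma fin_supp {F : ℂ × ℂ → ℂ} {D : ℂ × ℂ → ℂ → ℕ} (hF : Differentiable ℂ F) (h0 : F 0 ≠ 0)
    (hD : ∀ z ζ, D z ζ ≤ oF F z ζ) (z : ℂ × ℂ) (R : ℝ) :
    {ζ : ℂ | ‖ζ‖ ≤ R ∧ D z ζ ≠ 0}.Finite := by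
  have hfd : Differentiable ℂ (fun ξ : ℂ => F (ξ • z)) :=
    hF.comp (differentiable_id.smul_const z)
  have han : AnalyticOnNhd ℂ (fun ξ : ℂ => F (ξ • z)) univ := fun x _ => hfd.analyticAt x
  have key : ∀ x : ℂ, ∀ᶠ y in 𝓝 x, y ≠ x → D z y = 0 := by
    intro x
    have h1 : ∀ᶠ y in 𝓝[≠] x, F (y • z) ≠ 0 := by
      rcases (han x trivial).eventually_eq_zero_or_eventually_ne_zero with h | h
      · exfalso
        have := han.eqOn_zero_of_preconnected_of_eventuallyEq_zero isPreconnected_univ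
          (mem_univ x) h
        have h3 := this (mem_univ 0)
        simp only [zero_smul, Pi.zero_apply] at h3
        exact h0 h3
      · exact h
    rw [eventually_nhdsWithin_iff] at h1
    filter_upwards [h1] with y hy hyx
    exact D_zero hF hD (hy hyx)
  have hc : IsCompact (closedBall (0 : ℂ) R) := isCompact_closedBall _ _
  have h2 : (closedBall (0 : ℂ) R ∩ {ζ | D z ζ ≠ 0}).Finite := by
    refine hc.induction_on (p := fun s => (s ∩ {ζ | D z ζ ≠ 0}).Finite) (by simp) ?_ ?_ ?_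
    · intro s t hst ht
      exact ht.subset (inter_subset_inter_left _ hst)
    · intro s t hs ht
      rw [union_inter_distrib_right]
      exact hs.union ht
    · intro x _
      refine ⟨{y | y ≠ x → D z y = 0}, mem_nhdsWithin_of_mem_nhds (key x), ?_⟩
      refine (finite_singleton x).subset ?_
      rintro y ⟨hy1, hy2⟩
      by_contra hne
      exact hy2 (hy1 hne)
  refine h2.subset ?_
  rintro ζ ⟨h1, h3⟩
  exact ⟨by simpa using h1, h3⟩

/-- the cluster of `D z` in a ball, as a finite set -/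
noncomputable def clus {F : ℂ × ℂ → ℂ} {D : ℂ × ℂ → ℂ → ℕ} (hF : Differentiable ℂ F)
    (h0 : F 0 ≠ 0) (hD : ∀ z ζ, D z ζ ≤ oF F z ζ) (R : ℝ) (z : ℂ × ℂ) (c : ℂ) (r : ℝ) :
    Finset ℂ := by
  classical
  exact (fin_supp hF h0 hD z R).toFinset.filter (fun ζ => ζ ∈ ball c r)

section
variable {F : ℂ × ℂ → ℂ} {D : ℂ × ℂ → ℂ → ℕ} (hF : Differentiable ℂ F)
    (h0 : F 0 ≠ 0) (hD : ∀ z ζ, D z ζ ≤ oF F z ζ)

lemma mem_clus {R : ℝ} {z : ℂ × ℂ} {c : ℂ} {r : ℝ} {ζ : ℂ} :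
    ζ ∈ clus hF h0 hD R z c r ↔ (‖ζ‖ ≤ R ∧ D z ζ ≠ 0) ∧ ζ ∈ ball c r := by
  classical
  unfold clus
  rw [Finset.mem_filter, Set.Finite.mem_toFinset]
  rfl

lemma clus_sum {R : ℝ} {z : ℂ × ℂ} {c : ℂ} {r : ℝ} (hR : ball c r ⊆ closedBall 0 R) :
    ∑ᶠ ζ ∈ ball c r, D z ζ = ∑ ζ ∈ clus hF h0 hD R z c r, D z ζ := by
  apply finsum_mem_eq_sum_of_inter_support_eq
  ext ζ
  simp only [mem_inter_iff, Finset.mem_coe, mem_clus, Function.mem_support]
  constructor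
  · rintro ⟨h1, h2⟩
    have := hR h1
    exact ⟨⟨⟨by simpa using this, h2⟩, h1⟩, h2⟩
  · rintro ⟨⟨_, h1⟩, h2⟩
    exact ⟨h1, h2⟩

lemma clus_prod {R : ℝ} {z : ℂ × ℂ} {c : ℂ} {r : ℝ} (hR : ball c r ⊆ closedBall 0 R) :
    ∏ᶠ ζ ∈ ball c r, ζ ^ D z ζ = ∏ ζ ∈ clus hF h0 hD R z c r, ζ ^ D z ζ := by
  apply finprod_mem_eq_prod_of_inter_mulSupport_eq
  ext ζ
  simp only [mem_inter_iff, Finset.mem_coe, mem_clus, Function.mem_mulSupport]
  constructor
  · rintro ⟨h1, h2⟩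
    have := hR h1
    refine ⟨⟨⟨by simpa using this, ?_⟩, h1⟩, h2⟩
    intro h3
    rw [h3] at h2
    simp at h2
  · rintro ⟨⟨_, h1⟩, h2⟩
    exact ⟨h1, h2⟩

include hF h0 hD in
/-- the clusters near `z₀` -/
lemma local_clusters (hR : Reg D) (z₀ : ℂ × ℂ) (t η : ℝ) (hη : 0 < η) :
    ∃ (Z : Finset ℂ) (ε : ℂ → ℝ), (∀ ζ, ζ ∈ Z ↔ ‖ζ‖ ≤ t ∧ D z₀ ζ ≠ 0) ∧
      (∀ j ∈ Z, 0 < ε j ∧ ε j < η) ∧
      (∀ j ∈ Z, ∀ k ∈ Z, j ≠ k → Disjoint (ball j (ε j)) (ball k (ε k))) ∧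
      (∀ j ∈ Z, ∀ᶠ z in 𝓝 z₀, ∑ᶠ ζ ∈ ball j (ε j), D z ζ = D z₀ j) ∧
      (∀ j ∈ Z, ∀ d : ℂ × ℂ, ∃ g : ℂ → ℂ, AnalyticAt ℂ g 0 ∧
        ∀ᶠ s in 𝓝 (0 : ℂ), g s = ∏ᶠ ζ ∈ ball j (ε j), ζ ^ D (z₀ + s • d) ζ) ∧
      (∀ᶠ z in 𝓝 z₀, ∀ ζ : ℂ, ‖ζ‖ ≤ t → (∀ j ∈ Z, ζ ∉ ball j (ε j)) → D z ζ = 0) := by
  classical
  set Z : Finset ℂ := (fin_supp hF h0 hD z₀ t).toFinset with hZ
  have hZm : ∀ ζ, ζ ∈ Z ↔ ‖ζ‖ ≤ t ∧ D z₀ ζ ≠ 0 := fun ζ => by
    rw [hZ, Set.Finite.mem_toFinset]; rfl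
  -- separation
  have hsep : ∀ᶠ δ in 𝓝[>] (0 : ℝ), ∀ j ∈ Z, ∀ k ∈ Z, j ≠ k → 2 * δ ≤ dist j k := by
    rw [Finset.eventually_all]
    intro j _
    rw [Finset.eventually_all]
    intro k _
    by_cases hjk : j = k
    · exact Eventually.of_forall fun δ h => absurd hjk h
    · have hd : 0 < dist j k / 2 := by
        have := dist_pos.2 hjk
        positivity
      filter_upwards [Ioo_mem_nhdsGT hd] with δ hδ _
      linarith [hδ.2]
  obtain ⟨δ, hδ0, hδ⟩ : ∃ δ : ℝ, 0 < δ ∧ ∀ j ∈ Z, ∀ k ∈ Z, j ≠ k → 2 * δ ≤ dist j k := by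
    obtain ⟨δ, h1, h2⟩ := (hsep.and self_mem_nhdsWithin).exists
    exact ⟨δ, h2, h1⟩
  have hm : 0 < min η δ := lt_min hη hδ0
  choose e he0 he1 he2 he3 using fun ζ : ℂ => hR z₀ ζ (min η δ) hm
  refine ⟨Z, e, hZm, fun j _ => ⟨he0 j, (he1 j).trans_le (min_le_left _ _)⟩, ?_, fun j _ => he2 j,
    fun j _ d => he3 j d, ?_⟩
  · intro j hj k hk hjk
    apply ball_disjoint_ball
    have h1 := (he1 j).trans_le (min_le_right _ _)
    have h2 := (he1 k).trans_le (min_le_right _ _)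
    have h3 := hδ j hj k hk hjk
    linarith
  · have hK : IsCompact (closedBall (0 : ℂ) t \ ⋃ j ∈ Z, ball j (e j)) :=
      (isCompact_closedBall _ _).diff (isOpen_biUnion fun j _ => isOpen_ball)
    have h1 : ∀ᶠ z in 𝓝 z₀, ∀ ζ ∈ closedBall (0 : ℂ) t \ ⋃ j ∈ Z, ball j (e j), D z ζ = 0 := by
      refine hK.eventually_forall_of_forall_eventually (P := fun z ζ => D z ζ = 0) ?_
      rintro y ⟨hy1, hy2⟩
      have hy0 : D z₀ y = 0 := by
        by_contra hne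
        have hyZ : y ∈ Z := (hZm y).2 ⟨by simpa using hy1, hne⟩
        exact hy2 (mem_biUnion hyZ (mem_ball_self (he0 y)))
      have hA := he2 y
      rw [hy0] at hA
      have hB : ∀ᶠ z in 𝓝 z₀, ∀ ζ ∈ ball y (e y), D z ζ = 0 := by
        filter_upwards [hA] with z hz ζ hζ
        have hsub : ball y (e y) ⊆ closedBall (0 : ℂ) (‖y‖ + e y) := by
          intro x hx
          rw [mem_closedBall, dist_zero_right]
          have : ‖x - y‖ < e y := by simpa [dist_eq_norm] using hx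
          calc ‖x‖ = ‖y + (x - y)‖ := by ring_nf
            _ ≤ ‖y‖ + ‖x - y‖ := norm_add_le _ _
            _ ≤ ‖y‖ + e y := by linarith
        rw [clus_sum hF h0 hD hsub, Finset.sum_eq_zero_iff] at hz
        by_contra hne
        have h5 : ζ ∈ clus hF h0 hD (‖y‖ + e y) z y (e y) := by
          rw [mem_clus]
          have := hsub hζ
          exact ⟨⟨by simpa using this, hne⟩, hζ⟩
        exact hne (hz ζ h5)
      have hC : ∀ᶠ ζ in 𝓝 y, ζ ∈ ball y (e y) := ball_mem_nhds y (he0 y)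
      have := hB.prod_nhds hC
      filter_upwards [this] with p hp
      exact hp.1 p.2 hp.2
    filter_upwards [h1] with z hz ζ hζ1 hζ2
    refine hz ζ ⟨by simpa using hζ1, ?_⟩
    simp only [mem_iUnion, not_exists]
    intro j hj
    exact hζ2 j hj

/-- the Jensen sum as the sum over the clusters -/
lemma J_decomp {t η : ℝ} {z : ℂ × ℂ} {Z : Finset ℂ} {ε : ℂ → ℝ}
    (_hn : ∀ j ∈ Z, ‖j‖ ≤ t) (hε : ∀ j ∈ Z, ε j < η)
    (hdis : ∀ j ∈ Z, ∀ k ∈ Z, j ≠ k → Disjoint (ball j (ε j)) (ball k (ε k)))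
    (hz : ∀ ζ : ℂ, ‖ζ‖ ≤ t → (∀ j ∈ Z, ζ ∉ ball j (ε j)) → D z ζ = 0) {φ : ℂ → ℝ}
    (hφ : ∀ ζ, t ≤ ‖ζ‖ → φ ζ = 0) :
    ∑ᶠ ζ, (D z ζ : ℝ) * φ ζ =
      ∑ j ∈ Z, ∑ ζ ∈ clus hF h0 hD (t + η) z j (ε j), (D z ζ : ℝ) * φ ζ := by
  classical
  rw [← Finset.sum_biUnion]
  · apply finsum_eq_sum_of_support_subset
    intro ζ hζ
    rw [Function.mem_support] at hζ
    have h1 : D z ζ ≠ 0 := by
      intro h
      rw [h] at hζ
      simp at hζ
    have h2 : ‖ζ‖ < t := by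
      by_contra h
      rw [hφ ζ (not_lt.1 h), mul_zero] at hζ
      exact hζ rfl
    have h3 : ∃ j ∈ Z, ζ ∈ ball j (ε j) := by
      by_contra h
      push Not at h
      exact h1 (hz ζ h2.le h)
    obtain ⟨j, hj, hjb⟩ := h3
    rw [Finset.mem_coe, Finset.mem_biUnion]
    refine ⟨j, hj, ?_⟩
    rw [mem_clus]
    have h5 : 0 < ε j := by
      by_contra h
      rw [ball_eq_empty.2 (not_lt.1 h)] at hjb
      exact hjb
    exact ⟨⟨by linarith [hε j hj], h1⟩, hjb⟩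
  · intro j hj k hk hjk
    rw [Function.onFun, Finset.disjoint_left]
    intro ζ h1 h2
    rw [mem_clus] at h1 h2
    exact Set.disjoint_left.1 (hdis j hj k hk hjk) h1.2 h2.2

end

lemma phi_zero {t : ℝ} (ht : 0 < t) (ζ : ℂ) (h : t ≤ ‖ζ‖) : Real.posLog (t / ‖ζ‖) = 0 := by
  rw [Real.posLog_eq_zero_iff, abs_of_nonneg (by positivity)]
  exact div_le_one_of_le₀ h (norm_nonneg _)

lemma ball_sub {t η r : ℝ} {j : ℂ} (h1 : ‖j‖ ≤ t) (h2 : r < η) :
    ball j r ⊆ closedBall (0 : ℂ) (t + η) := by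
  intro x hx
  rw [mem_closedBall, dist_zero_right]
  have : ‖x - j‖ < r := by simpa [dist_eq_norm] using hx
  calc ‖x‖ = ‖j + (x - j)‖ := by ring_nf
    _ ≤ ‖j‖ + ‖x - j‖ := norm_add_le _ _
    _ ≤ t + η := by linarith

lemma J_cont {F : ℂ × ℂ → ℂ} {D : ℂ × ℂ → ℂ → ℕ} (hF : Differentiable ℂ F) (h0 : F 0 ≠ 0)
    (hD : ∀ z ζ, D z ζ ≤ oF F z ζ) (hR : Reg D) {t : ℝ} (ht : 0 < t) :
    Continuous (fun z => J D z t) := by
  classical
  rw [continuous_iff_continuousAt]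
  intro z₀
  rw [Metric.continuousAt_iff']
  intro ε₁ hε₁
  set φ : ℂ → ℝ := fun ζ => Real.posLog (t / ‖ζ‖) with hφd
  have hφ0 : ∀ ζ, t ≤ ‖ζ‖ → φ ζ = 0 := fun ζ h => phi_zero ht ζ h
  set Z₀ : Finset ℂ := (fin_supp hF h0 hD z₀ t).toFinset with hZ₀
  have hZ₀m : ∀ ζ, ζ ∈ Z₀ ↔ ‖ζ‖ ≤ t ∧ D z₀ ζ ≠ 0 := fun ζ => by
    rw [hZ₀, Set.Finite.mem_toFinset]; rfl
  set M : ℝ := ∑ j ∈ Z₀, (D z₀ j : ℝ) with hM
  have hM0 : 0 ≤ M := Finset.sum_nonneg fun j _ => Nat.cast_nonneg _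
  set ε' : ℝ := ε₁ / (M + 1) with hε'
  have hε'0 : 0 < ε' := by positivity
  have hη : ∀ᶠ η in 𝓝[>] (0 : ℝ), ∀ j ∈ Z₀, ∀ ζ, dist ζ j < η → |φ ζ - φ j| < ε' := by
    rw [Finset.eventually_all]
    intro j hj
    have hj0 : j ≠ 0 := by
      rintro rfl
      apply ((hZ₀m 0).1 hj).2
      apply D_zero hF hD
      simpa using h0
    have hc : ContinuousAt φ j := by
      have h1 : ContinuousAt (fun ζ : ℂ => t / ‖ζ‖) j := by
        apply ContinuousAt.div continuousAt_const continuous_norm.continuousAt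
        simpa using hj0
      exact Real.continuous_posLog.continuousAt.comp h1
    obtain ⟨δ, hδ, h⟩ := Metric.continuousAt_iff.1 hc ε' hε'0
    filter_upwards [Ioo_mem_nhdsGT hδ] with η hη ζ hζ
    have := h (hζ.trans hη.2)
    rwa [Real.dist_eq] at this
  obtain ⟨η, hη1, hη2⟩ := (hη.and self_mem_nhdsWithin).exists
  have hη0 : 0 < η := hη2
  obtain ⟨Z, ε, hZ, hε, hdis, hsum, -, hout⟩ := local_clusters hF h0 hD hR z₀ t η hη0
  have hZZ : Z = Z₀ := by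
    ext ζ
    rw [hZ, hZ₀m]
  have hsum' : ∀ᶠ z in 𝓝 z₀, ∀ j ∈ Z, ∑ᶠ ζ ∈ ball j (ε j), D z ζ = D z₀ j :=
    (Finset.eventually_all _).2 hsum
  have hJ₀ : J D z₀ t = ∑ j ∈ Z, (D z₀ j : ℝ) * φ j := by
    unfold J
    apply finsum_eq_sum_of_support_subset
    intro ζ hζ
    rw [Function.mem_support] at hζ
    rw [Finset.mem_coe, hZ]
    constructor
    · by_contra h
      push Not at h
      apply hζ
      have := hφ0 ζ h.le
      simp only [hφd] at this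
      rw [this, mul_zero]
    · intro h
      rw [h] at hζ
      simp at hζ
  filter_upwards [hsum', hout] with z hz1 hz2
  have hJz : J D z t = ∑ j ∈ Z, ∑ ζ ∈ clus hF h0 hD (t + η) z j (ε j), (D z ζ : ℝ) * φ ζ :=
    J_decomp hF h0 hD (fun j hj => ((hZ j).1 hj).1) (fun j hj => (hε j hj).2) hdis hz2 hφ0
  rw [Real.dist_eq, hJz, hJ₀, ← Finset.sum_sub_distrib]
  calc |∑ j ∈ Z, (∑ ζ ∈ clus hF h0 hD (t + η) z j (ε j), (D z ζ : ℝ) * φ ζ -
          (D z₀ j : ℝ) * φ j)|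
      ≤ ∑ j ∈ Z, |∑ ζ ∈ clus hF h0 hD (t + η) z j (ε j), (D z ζ : ℝ) * φ ζ -
          (D z₀ j : ℝ) * φ j| := Finset.abs_sum_le_sum_abs _ _
    _ ≤ ∑ j ∈ Z, (D z₀ j : ℝ) * ε' := by
        apply Finset.sum_le_sum
        intro j hj
        have h1 : (D z₀ j : ℝ) = ∑ ζ ∈ clus hF h0 hD (t + η) z j (ε j), (D z ζ : ℝ) := by
          rw [← hz1 j hj, clus_sum hF h0 hD (ball_sub ((hZ j).1 hj).1 (hε j hj).2)]
          push_cast
          rfl
        have h2 : ∑ ζ ∈ clus hF h0 hD (t + η) z j (ε j), (D z ζ : ℝ) * φ ζ -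
            (D z₀ j : ℝ) * φ j =
            ∑ ζ ∈ clus hF h0 hD (t + η) z j (ε j), (D z ζ : ℝ) * (φ ζ - φ j) := by
          conv_lhs => rw [h1]
          rw [Finset.sum_mul, ← Finset.sum_sub_distrib]
          exact Finset.sum_congr rfl fun ζ _ => by ring
        rw [h2]
        conv_rhs => rw [h1]
        rw [Finset.sum_mul]
        refine (Finset.abs_sum_le_sum_abs _ _).trans (Finset.sum_le_sum fun ζ hζ => ?_)
        rw [abs_mul, Nat.abs_cast]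
        apply mul_le_mul_of_nonneg_left _ (Nat.cast_nonneg _)
        rw [mem_clus] at hζ
        have h3 : dist ζ j < η := by
          have := mem_ball.1 hζ.2
          linarith [(hε j hj).2]
        exact (hη1 j (hZZ ▸ hj) ζ h3).le
    _ = M * ε' := by rw [← Finset.sum_mul, hZZ]
    _ < ε₁ := by
        rw [hε']
        rw [mul_div_assoc', div_lt_iff₀ (by positivity)]
        nlinarith

lemma J_sub {F : ℂ × ℂ → ℂ} {D : ℂ × ℂ → ℂ → ℕ} (hF : Differentiable ℂ F) (h0 : F 0 ≠ 0)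
    (hD : ∀ z ζ, D z ζ ≤ oF F z ζ) (hR : Reg D) {t : ℝ} (ht : 0 < t) (z₀ d : ℂ × ℂ) :
    ∃ r₀ > 0, ∀ r : ℝ, 0 < r → r < r₀ →
      J D z₀ t ≤ Real.circleAverage (fun s => J D (z₀ + s • d) t) 0 r := by
  classical
  set φ : ℂ → ℝ := fun ζ => Real.posLog (t / ‖ζ‖) with hφd
  have hφ0 : ∀ ζ, t ≤ ‖ζ‖ → φ ζ = 0 := fun ζ h => phi_zero ht ζ h
  have hφn : ∀ ζ, 0 ≤ φ ζ := fun ζ => Real.posLog_nonneg
  set Z₀ : Finset ℂ := (fin_supp hF h0 hD z₀ t).toFinset with hZ₀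
  have hη : ∀ᶠ η in 𝓝[>] (0 : ℝ), ∀ j ∈ Z₀, ‖j‖ < t → η ≤ t - ‖j‖ := by
    rw [Finset.eventually_all]
    intro j hj
    by_cases hjt : ‖j‖ < t
    · filter_upwards [Ioo_mem_nhdsGT (sub_pos.2 hjt)] with η hη _
      exact hη.2.le
    · exact Eventually.of_forall fun η h => absurd h hjt
  obtain ⟨η, hη1, hη2⟩ := (hη.and self_mem_nhdsWithin).exists
  have hη0 : 0 < η := hη2
  obtain ⟨Z, ε, hZ, hε, hdis, hsum, hprod, hout⟩ := local_clusters hF h0 hD hR z₀ t η hη0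
  have hZZ : ∀ j ∈ Z, j ∈ Z₀ := by
    intro j hj
    rw [hZ₀, Set.Finite.mem_toFinset]
    exact (hZ j).1 hj
  choose! g hg1 hg2 using fun j (hj : j ∈ Z) => hprod j hj d
  set Z' : Finset ℂ := Z.filter (fun j => ‖j‖ < t) with hZ'
  have hZ'Z : ∀ j ∈ Z', j ∈ Z ∧ ‖j‖ < t := fun j hj => by
    rw [hZ', Finset.mem_filter] at hj
    exact hj
  have hcont0 : Tendsto (fun s : ℂ => z₀ + s • d) (𝓝 0) (𝓝 z₀) := by
    have : ContinuousAt (fun s : ℂ => z₀ + s • d) 0 := by fun_prop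
    have h2 := this.tendsto
    simpa using h2
  have hsumE : ∀ᶠ z in 𝓝 z₀, ∀ j ∈ Z, ∑ᶠ ζ ∈ ball j (ε j), D z ζ = D z₀ j :=
    (Finset.eventually_all _).2 hsum
  have hsum' : ∀ᶠ s in 𝓝 (0 : ℂ), ∀ j ∈ Z, ∑ᶠ ζ ∈ ball j (ε j), D (z₀ + s • d) ζ = D z₀ j :=
    hcont0.eventually hsumE
  have hg' : ∀ᶠ s in 𝓝 (0 : ℂ), ∀ j ∈ Z, g j s = ∏ᶠ ζ ∈ ball j (ε j), ζ ^ D (z₀ + s • d) ζ :=
    (Finset.eventually_all _).2 hg2
  have hout' := hcont0.eventually hout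
  set L : ℂ → ℝ := fun s => ∑ j ∈ Z', ((D z₀ j : ℝ) * Real.log t - Real.log ‖g j s‖) with hL
  -- value of a cluster sum
  have hval : ∀ s : ℂ, (∀ j ∈ Z, ∑ᶠ ζ ∈ ball j (ε j), D (z₀ + s • d) ζ = D z₀ j) →
      (∀ j ∈ Z, g j s = ∏ᶠ ζ ∈ ball j (ε j), ζ ^ D (z₀ + s • d) ζ) → ∀ j ∈ Z',
      ∑ ζ ∈ clus hF h0 hD (t + η) (z₀ + s • d) j (ε j), (D (z₀ + s • d) ζ : ℝ) * φ ζ =
        (D z₀ j : ℝ) * Real.log t - Real.log ‖g j s‖ := by
    intro s h1 h2 j hj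
    obtain ⟨hjZ, hjt⟩ := hZ'Z j hj
    have hb := ball_sub (t := t) ((hZ j).1 hjZ).1 (hε j hjZ).2
    rw [h2 j hjZ, ← h1 j hjZ, clus_sum hF h0 hD hb, clus_prod hF h0 hD hb, norm_prod]
    have hne : ∀ ζ ∈ clus hF h0 hD (t + η) (z₀ + s • d) j (ε j), ζ ≠ 0 := by
      intro ζ hζ hζ0
      rw [mem_clus] at hζ
      apply hζ.1.2
      apply D_zero hF hD
      rw [hζ0]
      simpa using h0
    rw [Real.log_prod (fun ζ hζ => by
      have := hne ζ hζ
      simp [this])]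
    push_cast
    rw [Finset.sum_mul, ← Finset.sum_sub_distrib]
    apply Finset.sum_congr rfl
    intro ζ hζ
    have hζ0 := hne ζ hζ
    rw [mem_clus] at hζ
    have hlt : ‖ζ‖ < t := by
      have h3 : ‖ζ - j‖ < ε j := by simpa [dist_eq_norm] using hζ.2
      have h4 := hη1 j (hZZ j hjZ) hjt
      calc ‖ζ‖ = ‖j + (ζ - j)‖ := by ring_nf
        _ ≤ ‖j‖ + ‖ζ - j‖ := norm_add_le _ _
        _ < t := by linarith [(hε j hjZ).2]
    have hpos : 0 < ‖ζ‖ := norm_pos_iff.2 hζ0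
    have h5 : φ ζ = Real.log t - Real.log ‖ζ‖ := by
      simp only [hφd]
      rw [Real.posLog_eq_log, Real.log_div ht.ne' hpos.ne']
      rw [abs_of_pos (by positivity), one_le_div hpos]
      exact hlt.le
    rw [h5, norm_pow, Real.log_pow]
    ring
  -- lower bound
  have hlow : ∀ᶠ s in 𝓝 (0 : ℂ), L s ≤ J D (z₀ + s • d) t := by
    filter_upwards [hsum', hg', hout'] with s h1 h2 h3
    have hJz : J D (z₀ + s • d) t =
        ∑ j ∈ Z, ∑ ζ ∈ clus hF h0 hD (t + η) (z₀ + s • d) j (ε j),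
          (D (z₀ + s • d) ζ : ℝ) * φ ζ :=
      J_decomp hF h0 hD (fun j hj => ((hZ j).1 hj).1) (fun j hj => (hε j hj).2) hdis h3 hφ0
    rw [hJz]
    have : L s = ∑ j ∈ Z', ∑ ζ ∈ clus hF h0 hD (t + η) (z₀ + s • d) j (ε j),
          (D (z₀ + s • d) ζ : ℝ) * φ ζ :=
      Finset.sum_congr rfl fun j hj => (hval s h1 h2 j hj).symm
    rw [this]
    apply Finset.sum_le_sum_of_subset_of_nonneg (Finset.filter_subset _ _)
    intro j _ _
    exact Finset.sum_nonneg fun ζ _ => mul_nonneg (Nat.cast_nonneg _) (hφn ζ)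
  -- equality at 0
  have hJ₀ : J D z₀ t = ∑ j ∈ Z', (D z₀ j : ℝ) * φ j := by
    unfold J
    apply finsum_eq_sum_of_support_subset
    intro ζ hζ
    rw [Function.mem_support] at hζ
    have hlt : ‖ζ‖ < t := by
      by_contra h
      push Not at h
      apply hζ
      have := hφ0 ζ h
      simp only [hφd] at this
      rw [this, mul_zero]
    rw [Finset.mem_coe, hZ', Finset.mem_filter, hZ]
    refine ⟨⟨hlt.le, ?_⟩, hlt⟩
    intro h
    rw [h] at hζ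
    simp at hζ
  have hg0 : ∀ j ∈ Z, g j 0 = j ^ D z₀ j := by
    intro j hj
    have h1 := hsum'.self_of_nhds j hj
    have h2 := hg'.self_of_nhds j hj
    have hb := ball_sub (t := t) ((hZ j).1 hj).1 (hε j hj).2
    rw [clus_sum hF h0 hD hb] at h1
    rw [clus_prod hF h0 hD hb] at h2
    simp only [zero_smul, add_zero] at h1 h2
    have hmem : j ∈ clus hF h0 hD (t + η) z₀ j (ε j) := by
      rw [mem_clus]
      exact ⟨⟨by linarith [((hZ j).1 hj).1], ((hZ j).1 hj).2⟩, mem_ball_self (hε j hj).1⟩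
    rw [← Finset.add_sum_erase _ _ hmem] at h1
    have h3 : ∑ x ∈ (clus hF h0 hD (t + η) z₀ j (ε j)).erase j, D z₀ x = 0 := by omega
    rw [Finset.sum_eq_zero_iff] at h3
    rw [h2]
    refine Finset.prod_eq_single j ?_ (fun h => absurd hmem h)
    intro b hb1 hb2
    rw [h3 b (Finset.mem_erase.2 ⟨hb2, hb1⟩), pow_zero]
  have hjne : ∀ j ∈ Z, j ≠ 0 := by
    rintro j hj rfl
    apply ((hZ 0).1 hj).2
    apply D_zero hF hD
    simpa using h0
  have hL0 : J D z₀ t = L 0 := by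
    rw [hJ₀, hL]
    apply Finset.sum_congr rfl
    intro j hj
    obtain ⟨hjZ, hjt⟩ := hZ'Z j hj
    have hpos : 0 < ‖j‖ := norm_pos_iff.2 (hjne j hjZ)
    have h5 : φ j = Real.log t - Real.log ‖j‖ := by
      simp only [hφd]
      rw [Real.posLog_eq_log, Real.log_div ht.ne' hpos.ne']
      rw [abs_of_pos (by positivity), one_le_div hpos]
      exact hjt.le
    rw [hg0 j hjZ, h5, norm_pow, Real.log_pow]
    ring
  -- analyticity of the `g j`
  have hgan : ∀ᶠ s in 𝓝 (0 : ℂ), ∀ j ∈ Z, AnalyticAt ℂ (g j) s ∧ g j s ≠ 0 := by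
    rw [Finset.eventually_all]
    intro j hj
    refine (hg1 j hj).eventually_analyticAt.and ?_
    apply (hg1 j hj).continuousAt.eventually_ne
    rw [hg0 j hj]
    exact pow_ne_zero _ (hjne j hj)
  obtain ⟨r₀, hr₀, hball⟩ := Metric.eventually_nhds_iff_ball.1 (hlow.and hgan)
  refine ⟨r₀, hr₀, fun r hr hrr => ?_⟩
  have hcb : closedBall (0 : ℂ) |r| ⊆ ball 0 r₀ := by
    rw [abs_of_pos hr]
    exact closedBall_subset_ball hrr
  have hci : ∀ j ∈ Z', CircleIntegrable (fun s => Real.log ‖g j s‖) 0 r := by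
    intro j hj
    apply ContinuousOn.circleIntegrable hr.le
    intro s hs
    have hs' : s ∈ ball (0 : ℂ) r₀ := by
      rw [mem_ball, mem_sphere.1 hs]
      exact hrr
    have h1 := (hball s hs').2 j (hZ'Z j hj).1
    apply ContinuousAt.continuousWithinAt
    exact (h1.1.continuousAt.norm).log (by simpa using h1.2)
  have hcc : ∀ j ∈ Z', CircleIntegrable (fun _ : ℂ => (D z₀ j : ℝ) * Real.log t) 0 r :=
    fun j _ => circleIntegrable_const _ _ _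
  have hLi : CircleIntegrable L 0 r := by
    have := CircleIntegrable.fun_sum (s := Z') (f := fun j s =>
      ((D z₀ j : ℝ) * Real.log t - Real.log ‖g j s‖)) (c := 0) (R := r)
      (fun j hj => (hcc j hj).sub (hci j hj))
    exact this
  have hLavg : Real.circleAverage L 0 r = L 0 := by
    have hfs : Real.circleAverage
        (fun s => ∑ j ∈ Z', ((D z₀ j : ℝ) * Real.log t - Real.log ‖g j s‖)) 0 r =
        ∑ j ∈ Z', Real.circleAverage
          (fun s => (D z₀ j : ℝ) * Real.log t - Real.log ‖g j s‖) 0 r :=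
      Real.circleAverage_fun_sum
        (f := fun j s => ((D z₀ j : ℝ) * Real.log t - Real.log ‖g j s‖))
        (fun j hj => (hcc j hj).sub (hci j hj))
    rw [hL, hfs]
    apply Finset.sum_congr rfl
    intro j hj
    rw [Real.circleAverage_fun_sub (hcc j hj) (hci j hj), Real.circleAverage_const]
    have h1 : AnalyticOnNhd ℂ (g j) (closedBall 0 |r|) := fun s hs =>
      ((hball s (hcb hs)).2 j (hZ'Z j hj).1).1
    have h2 : ∀ u ∈ closedBall (0 : ℂ) |r|, g j u ≠ 0 := fun s hs =>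
      ((hball s (hcb hs)).2 j (hZ'Z j hj).1).2
    rw [h1.circleAverage_log_norm_of_ne_zero h2]
  rw [hL0, ← hLavg]
  apply Real.circleAverage_mono hLi
  · have hc : Continuous (fun s : ℂ => J D (z₀ + s • d) t) :=
      (J_cont hF h0 hD hR ht).comp (by fun_prop)
    exact hc.continuousOn.circleIntegrable hr.le
  · intro s hs
    refine (hball s (hcb ?_)).1
    exact sphere_subset_closedBall hs

theorem JC_proof : T_JC := by
  intro F D hF h0 hD hR z d t ht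
  refine ⟨(J_cont hF h0 hD hR ht).comp (by fun_prop), fun c => ?_⟩
  obtain ⟨r₀, hr₀, h⟩ := J_sub hF h0 hD hR ht (z + c • d) d
  refine ⟨r₀, hr₀, fun r hr hrr => ?_⟩
  have h1 := h r hr hrr
  rw [← Real.circleAverage_map_add_const]
  refine h1.trans (le_of_eq ?_)
  congr 1
  ext s
  congr 1
  rw [add_smul]
  abel

end Pool.Agent.H17.BP
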